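import Pool.Agent.Helper91.GU.StA

/-!
# Project GU (MP_b1e6de_al): module A2

Splitting of a path over `A_{fi}` (Quillen).
-/

set_option autoImplicit false

namespace Pool.Agent.Helper95.GU

open Polynomial
open Pool.Agent.Helper91.GU

universe u

lemma isUnit_det_map {n : Type} [Fintype n] [DecidableEq n] {A B : Type u} [CommRing A]
    [CommRing B] (φ : A →+* B) (M : Matrix n n A) (h : IsUnit M.det) : IsUnit (M.map φ).det := by
  have h1 := RingHom.map_det φ M
  rw [RingHom.mapMatrix_apply] at h1
  rw [← h1]
  exact h.map φ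

lemma vecMul_map_of {n : Type} [Fintype n] {A B : Type u} [CommRing A]
    [CommRing B] (φ : A →+* B) (M : Matrix n n A) (v w : n → A) (h : Matrix.vecMul v M = w) :
    Matrix.vecMul (fun j => φ (v j)) (M.map φ) = fun j => φ (w j) := by
  subst h
  ext j
  exact (RingHom.map_vecMul φ M v j).symm

lemma map_mul' {n : Type} [Fintype n] {A B : Type u} [CommRing A] [CommRing B] (φ : A →+* B)
    (M N : Matrix n n A) : (M * N).map φ = M.map φ * N.map φ := Matrix.map_mul

theorem hA2 (hA1 : StA1.{u}) : StA2.{u} := by
  intro A Af Ai Afi _ _ _ _ _ _ _ _ _ f i hsq n _ _ v h hdet h0 hv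
  haveI := hsq.towf
  haveI := hsq.towi
  have hcop := hsq.cop
  haveI : IsLocalization.Away (algebraMap A Ai f) Afi := hsq.locif'
  haveI hloc' : IsLocalization.Away (algebraMap A Af i) Afi := hsq.locfi'
  -- first application
  obtain ⟨N₁, hN₁⟩ := hA1 Ai Afi (algebraMap A Ai f) n h (fun j => C (algebraMap A Ai (v j)))
    (fun j => C (algebraMap A Ai (v j))) hdet h0
    (by
      have e : (fun j => (C (algebraMap A Ai (v j)) : Ai[X]).map (algebraMap Ai Afi))
          = fun j => C (algebraMap A Afi (v j)) := by
        funext j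
        rw [Polynomial.map_C, ← IsScalarTower.algebraMap_apply]
      rw [e]
      exact hv) (fun _ => rfl)
  -- second application
  letI alg : Algebra Af[X] Afi[X] := Polynomial.algebra Af Afi
  have halg : algebraMap Af[X] Afi[X] = mapRingHom (algebraMap Af Afi) := rfl
  haveI hl2 : IsLocalization.Away (C (algebraMap A Af i)) Afi[X] := by
    have h1 := Polynomial.isLocalization (Submonoid.powers (algebraMap A Af i)) Afi
    rw [Submonoid.map_powers] at h1
    exact h1
  obtain ⟨hinv, hinvdet, hmul⟩ : ∃ h' : Matrix n n Afi[X], IsUnit h'.det ∧ h * h' = 1 := by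
    refine ⟨h⁻¹, ?_, Matrix.mul_nonsing_inv h hdet⟩
    exact Matrix.isUnit_nonsing_inv_det h hdet
  have hmul' : hinv * h = 1 := mul_eq_one_comm.1 hmul
  have hvinv : Matrix.vecMul (fun j => C (algebraMap A Afi (v j))) hinv
      = (fun j => C (algebraMap A Afi (v j))) := by
    conv_lhs => rw [← hv]
    rw [Matrix.vecMul_vecMul, hmul, Matrix.vecMul_one]
  -- the shift `P(X) ↦ P(X + Z)`
  obtain ⟨sh, hsh⟩ : ∃ sh : Afi[X] →+* Afi[X][X],
      sh = eval₂RingHom (C.comp C) (C X + X) := ⟨_, rfl⟩
  have hshC : ∀ a : Afi, sh (C a) = C (C a) := by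
    intro a
    rw [hsh]
    simp
  obtain ⟨k, hk⟩ : ∃ k : Matrix n n Afi[X][X], k = h.map sh * hinv.map C := ⟨_, rfl⟩
  have hkdet : IsUnit k.det := by
    rw [hk, Matrix.det_mul]
    exact (isUnit_det_map sh h hdet).mul (isUnit_det_map C hinv hinvdet)
  have hkv : Matrix.vecMul (fun j => (C (C (algebraMap A Afi (v j))) : Afi[X][X])) k
      = fun j => C (C (algebraMap A Afi (v j))) := by
    have h1 := vecMul_map_of sh h _ _ hv
    have h2 := vecMul_map_of (C : Afi[X] →+* Afi[X][X]) hinv _ _ hvinv
    simp only [hshC] at h1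
    rw [hk, ← Matrix.vecMul_vecMul, h1, h2]
  have hk0 : k.map (eval 0) = 1 := by
    have e1 : k.map (eval 0) = k.map (evalRingHom (0 : Afi[X])) := rfl
    rw [e1, hk, map_mul', Matrix.map_map, Matrix.map_map]
    have e2 : (⇑(evalRingHom (0 : Afi[X])) ∘ ⇑sh) = id := by
      funext P
      have : (evalRingHom (0 : Afi[X])).comp sh = RingHom.id _ := by
        apply Polynomial.ringHom_ext
        · intro a
          rw [RingHom.comp_apply, hshC]
          simp
        · rw [RingHom.comp_apply, hsh]
          simp
      exact congrFun (congrArg DFunLike.coe this) P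
    have e3 : (⇑(evalRingHom (0 : Afi[X])) ∘ ⇑(C : Afi[X] →+* Afi[X][X])) = id := by
      funext P
      simp
    rw [e2, e3, Matrix.map_id, Matrix.map_id, hmul]
  obtain ⟨N₂, hN₂⟩ := hA1 Af[X] Afi[X] (C (algebraMap A Af i)) n k
    (fun j => C (C (algebraMap A Af (v j)))) (fun j => C (C (algebraMap A Af (v j)))) hkdet hk0
    (by
      have e : (fun j => (C (C (algebraMap A Af (v j))) : Af[X][X]).map (algebraMap Af[X] Afi[X]))
          = fun j => C (C (algebraMap A Afi (v j))) := by
        funext j
        rw [Polynomial.map_C, halg, coe_mapRingHom, Polynomial.map_C,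
          ← IsScalarTower.algebraMap_apply]
      rw [e]
      exact hkv) (fun _ => rfl)
  obtain ⟨N, hN⟩ : ∃ N, N = max N₁ N₂ := ⟨_, rfl⟩
  obtain ⟨Hi, hHidet, -, hHimap, hHiv⟩ := hN₁ N (by omega)
  obtain ⟨K, hKdet, -, hKmap, hKv⟩ := hN₂ N (by omega)
  obtain ⟨b', z, hbz⟩ : IsCoprime (f ^ N) (i ^ N) := hcop.pow
  -- evaluation maps
  obtain ⟨φf, hφf⟩ : ∃ φf : Af[X][X] →+* Af,
      φf = (evalRingHom (algebraMap A Af (f ^ N * b'))).comp
        (evalRingHom (C (algebraMap A Af z))) := ⟨_, rfl⟩
  obtain ⟨φi, hφi⟩ : ∃ φi : Ai[X] →+* Ai, φi = evalRingHom (algebraMap A Ai b') := ⟨_, rfl⟩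
  have hφfC : ∀ a : Af, φf (C (C a)) = a := by
    intro a
    rw [hφf]
    simp
  have hφiC : ∀ a : Ai, φi (C a) = a := by
    intro a
    rw [hφi]
    simp
  refine ⟨K.map φf, Hi.map φi, isUnit_det_map φf K hKdet, isUnit_det_map φi Hi hHidet, ?_, ?_, ?_⟩
  · have h1 := vecMul_map_of φf K _ _ hKv
    simp only [C_comp, hφfC] at h1
    exact h1
  · have h1 := vecMul_map_of φi Hi _ _ hHiv
    simp only [C_comp, hφiC] at h1
    exact h1
  · -- images in Afi
    obtain ⟨b, hb⟩ : ∃ b : Afi, b = algebraMap A Afi (f ^ N * b') := ⟨_, rfl⟩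
    obtain ⟨z0, hz0⟩ : ∃ z0 : Afi, z0 = algebraMap A Afi (i ^ N * z) := ⟨_, rfl⟩
    have hbz0 : b + z0 = 1 := by
      rw [hb, hz0, ← map_add]
      have : f ^ N * b' + i ^ N * z = 1 := by
        rw [← hbz]
        ring
      rw [this, map_one]
    -- second factor
    have hi : (Hi.map φi).map (algebraMap Ai Afi) = h.map (evalRingHom b) := by
      have e1 : (Hi.map φi).map (algebraMap Ai Afi)
          = (Hi.map (Polynomial.map (algebraMap Ai Afi))).map
              (evalRingHom (algebraMap A Afi b')) := by
        ext a c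
        simp only [Matrix.map_apply, hφi, coe_evalRingHom]
        rw [Polynomial.eval_map, IsScalarTower.algebraMap_apply A Ai Afi b']
        exact (Polynomial.eval₂_at_apply _ _).symm
      rw [e1, hHimap]
      ext a c
      simp only [Matrix.map_apply, coe_evalRingHom, eval_comp, eval_mul, eval_C, eval_X]
      congr 1
      rw [hb, map_mul, map_pow, map_pow, ← IsScalarTower.algebraMap_apply]
    -- first factor
    have hfk : (K.map φf).map (algebraMap Af Afi)
        = k.map ((evalRingHom b).comp (evalRingHom (C z0))) := by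
      have e1 : (K.map φf).map (algebraMap Af Afi)
          = (K.map (Polynomial.map (algebraMap Af[X] Afi[X]))).map
              ((evalRingHom b).comp (evalRingHom (C (algebraMap A Afi z)))) := by
        have e2 : (algebraMap Af Afi).comp φf
            = ((evalRingHom b).comp (evalRingHom (C (algebraMap A Afi z)))).comp
              (mapRingHom (algebraMap Af[X] Afi[X])) := by
          apply Polynomial.ringHom_ext
          · intro P
            simp only [RingHom.comp_apply, hφf, coe_evalRingHom, eval_C, coe_mapRingHom,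
              Polynomial.map_C, halg]
            rw [Polynomial.eval_map, hb, IsScalarTower.algebraMap_apply A Af Afi]
            exact (Polynomial.eval₂_at_apply _ _).symm
          · simp only [RingHom.comp_apply, hφf, coe_evalRingHom, eval_X, eval_C, coe_mapRingHom,
              Polynomial.map_X]
            rw [← IsScalarTower.algebraMap_apply]
        ext a c
        have e3 := congrFun (congrArg DFunLike.coe e2) (K a c)
        simpa using e3
      rw [e1, hKmap]
      ext a c
      simp only [Matrix.map_apply, RingHom.comp_apply, coe_evalRingHom, eval_comp, eval_mul, eval_C,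
        eval_X]
      congr 2
      rw [halg, map_pow, coe_mapRingHom, Polynomial.map_C, ← IsScalarTower.algebraMap_apply, hz0,
        ← C_pow, ← C_mul, ← map_pow, ← map_mul]
    have hkk : k.map ((evalRingHom b).comp (evalRingHom (C z0)))
        = h.map (evalRingHom (b + z0)) * hinv.map (evalRingHom b) := by
      rw [hk, map_mul', Matrix.map_map, Matrix.map_map]
      congr 1
      · congr 1
        funext P
        have : ((evalRingHom b).comp (evalRingHom (C z0))).comp sh = evalRingHom (b + z0) := by
          apply Polynomial.ringHom_ext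
          · intro a
            rw [RingHom.comp_apply, hshC]
            simp
          · rw [RingHom.comp_apply, hsh]
            simp
        exact congrFun (congrArg DFunLike.coe this) P
      · congr 1
        funext P
        simp
    rw [hi, hfk, hkk, mul_assoc, ← map_mul', hmul', hbz0]
    have e4 : (1 : Matrix n n Afi[X]).map (evalRingHom b) = 1 :=
      Matrix.map_one _ (map_zero _) (map_one _)
    rw [e4, mul_one]
    rfl

end Pool.Agent.Helper95.GU
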